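import Pool.Agent.MVO.StmtsD

/-!
# Squad MVO, row RVB: reversal of exchanges
-/

set_option autoImplicit false

namespace Pool.Agent.MVO.H8

open Pool.Agent.Helper14_MV Pool.Agent.Helper2_MV Pool.Agent.MVO

/-- reversal of the simple letters `2, …, k + 1` -/
def rv (k : ℕ) : ℕ → List ℕ := fun t => if 2 ≤ t ∧ t ≤ k + 1 then [k + 3 - t] else [t]

theorem rv_rv (k : ℕ) (l : List ℕ) : (l.flatMap (rv k)).flatMap (rv k) = l := by
  induction l with
  | nil => rfl
  | cons t l ih =>
    rw [List.flatMap_cons, List.flatMap_append, ih]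
    have h : (rv k t).flatMap (rv k) = [t] := by
      unfold rv
      by_cases h : 2 ≤ t ∧ t ≤ k + 1
      · rw [if_pos h, List.flatMap_cons, List.flatMap_nil, List.append_nil, if_pos (by omega)]
        congr 1
        omega
      · rw [if_neg h, List.flatMap_cons, List.flatMap_nil, List.append_nil, if_neg h]
    rw [h]
    rfl

/-- `rv` fixes the words in the letters `0, 1` -/
theorem rv_small (k : ℕ) (l : List ℕ) (h : ∀ c ∈ l, c < 2) : l.flatMap (rv k) = l := by
  induction l with
  | nil => rfl
  | cons t l ih =>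
    have ht : t < 2 := h t (by simp)
    have h0 : rv k t = [t] := by
      unfold rv
      rw [if_neg (by omega)]
    rw [List.flatMap_cons, ih (fun c hc => h c (List.mem_cons_of_mem _ hc)), h0]
    rfl

/-- the word without the last block -/
def pre (B : ℕ → List ℕ) : ℕ → List ℕ
  | 0 => []
  | k + 1 => asm k B ++ [k + 2]

theorem asm_pre (B : ℕ → List ℕ) (k : ℕ) : asm k B = pre B k ++ B k := by
  cases k with
  | zero => simp [asm, pre]
  | succ k => simp [asm, pre]

theorem asm_congr' (k : ℕ) (B B' : ℕ → List ℕ) (h : ∀ j ≤ k, B j = B' j) :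
    asm k B = asm k B' := by
  induction k with
  | zero => exact h 0 le_rfl
  | succ k ih =>
    show asm k B ++ (k + 2) :: B (k + 1) = asm k B' ++ (k + 2) :: B' (k + 1)
    rw [ih (fun j hj => h j (by omega)), h (k + 1) le_rfl]

theorem asm_rev_aux (K : ℕ) (B : ℕ → List ℕ) (hB : ∀ j, ∀ c ∈ B j, c < 2) : ∀ k ≤ K,
    asm K (fun j => (B (K - j)).reverse) =
      asm (K - k) (fun j => (B (K - j)).reverse) ++ (pre B k).reverse.flatMap (rv K) := by
  intro k
  induction k with
  | zero =>
    intro _
    simp [pre]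
  | succ k ih =>
    intro hk
    rw [ih (by omega)]
    obtain ⟨m, hm⟩ : ∃ m, K - k = m + 1 := ⟨K - k - 1, by omega⟩
    have hm' : K - (k + 1) = m := by omega
    rw [hm, hm']
    have e1 : pre B (k + 1) = pre B k ++ B k ++ [k + 2] := by
      show asm k B ++ [k + 2] = _
      rw [asm_pre]
    rw [e1]
    have e2 : ((B k).reverse).flatMap (rv K) = (B k).reverse :=
      rv_small K _ (fun c hc => hB k c (List.mem_reverse.mp hc))
    have e3 : rv K (k + 2) = [m + 2] := by
      unfold rv
      rw [if_pos (by omega)]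
      congr 1
      omega
    have e4 : K - (m + 1) = k := by omega
    rw [List.reverse_append, List.reverse_append, List.reverse_singleton,
      List.flatMap_append, List.flatMap_append, List.flatMap_singleton, e3, e2]
    show (asm m _ ++ (m + 2) :: (B (K - (m + 1))).reverse) ++ _ = _
    rw [e4]
    simp

theorem asm_rev (k : ℕ) (B : ℕ → List ℕ) (hB : ∀ j, ∀ c ∈ B j, c < 2) :
    (asm k B).reverse.flatMap (rv k) = asm k (fun j => (B (k - j)).reverse) := by
  rw [asm_rev_aux k B hB k le_rfl, asm_pre _ k, List.reverse_append,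
    List.flatMap_append, Nat.sub_self]
  congr 1
  show _ = (B (k - 0)).reverse
  rw [Nat.sub_zero]
  exact rv_small k _ (fun c hc => hB k c (List.mem_reverse.mp hc))

theorem bl_small (p q : ℕ) (e : Bool) : ∀ c ∈ bl p q e, c < 2 := by
  intro c hc
  cases e <;> simp only [bl, if_true, if_false, Bool.false_eq_true, List.mem_append,
    List.mem_replicate] at hc <;> omega

theorem bl_rev (p q : ℕ) (e : Bool) : (bl p q e).reverse = bl p q (!e) := by
  cases e <;> simp [bl]

theorem w2_rev (k : ℕ) (a b : ℕ → ℕ) (e : ℕ → Bool) :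
    (w2 k a b e).reverse.flatMap (rv k) =
      w2 k (fun j => a (k - j)) (fun j => b (k - j)) (fun j => !(e (k - j))) := by
  unfold w2
  rw [asm_rev k _ (fun j => bl_small _ _ _)]
  apply asm_congr'
  intro j _
  exact bl_rev _ _ _

theorem w2_rev' (k : ℕ) (a b : ℕ → ℕ) (e : ℕ → Bool) :
    (w2 k (fun j => a (k - j)) (fun j => b (k - j)) (fun j => !(e (k - j)))).flatMap (rv k) =
      (w2 k a b e).reverse := by
  rw [← w2_rev, rv_rv]

theorem w2_congr (k : ℕ) (a b : ℕ → ℕ) (e e' : ℕ → Bool) (h : ∀ j ≤ k, e j = e' j) :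
    w2 k a b e = w2 k a b e' := by
  unfold w2
  apply asm_congr'
  intro j hj
  show bl _ _ _ = bl _ _ _
  rw [h j hj]

theorem flp_rev (k i : ℕ) (e : ℕ → Bool) (hi : i ≤ k) :
    ∀ j ≤ k, (!(flp e i (k - j))) = flp (fun j => !(e (k - j))) (k - i) j := by
  intro j hj
  unfold flp
  by_cases h : k - j = i
  · rw [if_pos h, if_pos (by omega)]
  · rw [if_neg h, if_neg (by omega)]

/-- **RVB** -/
theorem rvb : RvbStmt := by
  intro β k a b i hi
  have e : ∀ e, Ex (FIC.op β) k a b e i ↔
      RR β (w2 k a b e).reverse (w2 k a b (flp e i)).reverse := fun _ => Iff.rfl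
  constructor
  · intro h e'
    have h1 := ((e (fun j => !(e' (k - j)))).mp (h _)).sub (rv k)
    rw [w2_rev, w2_rev] at h1
    unfold Ex
    have c1 : w2 k (fun j => a (k - j)) (fun j => b (k - j)) (fun j => !(!(e' (k - (k - j)))))
        = w2 k (fun j => a (k - j)) (fun j => b (k - j)) e' := by
      apply w2_congr
      intro j hj
      rw [Bool.not_not]
      congr 1
      omega
    have c2 : w2 k (fun j => a (k - j)) (fun j => b (k - j))
          (fun j => !(flp (fun j => !(e' (k - j))) i (k - j)))
        = w2 k (fun j => a (k - j)) (fun j => b (k - j)) (flp e' (k - i)) := by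
      apply w2_congr
      intro j hj
      rw [flp_rev k i _ hi j hj]
      unfold flp
      have hj' : k - (k - j) = j := by omega
      by_cases hh : j = k - i
      · rw [if_pos hh, if_pos hh, Bool.not_not, hj']
      · rw [if_neg hh, if_neg hh]
        show (!(!(e' (k - (k - j))))) = e' j
        rw [Bool.not_not, hj']
    rw [c1] at h1
    rw [c2] at h1
    exact h1
  · intro h e0
    rw [e]
    have h1 := (h (fun j => !(e0 (k - j))))
    unfold Ex at h1
    have c2 : w2 k (fun j => a (k - j)) (fun j => b (k - j))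
          (flp (fun j => !(e0 (k - j))) (k - i))
        = w2 k (fun j => a (k - j)) (fun j => b (k - j)) (fun j => !(flp e0 i (k - j))) := by
      apply w2_congr
      intro j hj
      exact (flp_rev k i e0 hi j hj).symm
    rw [c2] at h1
    have h2 := h1.sub (rv k)
    rw [w2_rev', w2_rev'] at h2
    exact h2

end Pool.Agent.MVO.H8
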